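import Mathlib

set_option autoImplicit false

/-!
A homeomorphism of the plane close to the identity, composed of a vertical and a horizontal shear,
which moves four small arcs of a given curve to four crossing arcs at the vertices of a
quadrilateral.
-/

namespace Pool.Agent.N440.TJ

open Complex Set

/-! ### Crossings of continuous functions -/

theorem cross_le {φ : ℝ → ℝ} (hφ : Continuous φ) {p q u v : ℝ} (hpq : p ≤ q) (huv : u ≤ v)
    (hp : φ p ≤ u) (hq : v ≤ φ q) :
    ∃ a b, p ≤ a ∧ a ≤ b ∧ b ≤ q ∧ φ a = u ∧ φ b = v ∧ ∀ t ∈ Icc a b, u ≤ φ t ∧ φ t ≤ v := by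
  -- the first time `b` at which `φ ≥ v`
  have hc1 : IsCompact {t | t ∈ Icc p q ∧ v ≤ φ t} := by
    have : {t | t ∈ Icc p q ∧ v ≤ φ t} = Icc p q ∩ φ ⁻¹' (Ici v) := rfl
    rw [this]
    exact isCompact_Icc.inter_right (isClosed_Ici.preimage hφ)
  obtain ⟨b, ⟨hb1, hb2⟩, hb3⟩ := hc1.exists_isLeast ⟨q, ⟨hpq, le_rfl⟩, hq⟩
  have hbv : φ b = v := by
    by_contra hne
    have hlt : v < φ b := lt_of_le_of_ne hb2 (Ne.symm hne)
    have hpv : φ p ≤ v := hp.trans huv
    obtain ⟨t, ht, htv⟩ := intermediate_value_Icc hb1.1 hφ.continuousOn ⟨hpv, hlt.le⟩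
    have : b ≤ t := hb3 ⟨⟨ht.1, ht.2.trans hb1.2⟩, htv.ge⟩
    have hbt : t = b := le_antisymm ht.2 this
    rw [hbt] at htv
    exact hne htv
  have hle : ∀ t ∈ Icc p b, φ t ≤ v := by
    intro t ht
    by_contra hcon
    push Not at hcon
    have : b ≤ t := hb3 ⟨⟨ht.1, ht.2.trans hb1.2⟩, hcon.le⟩
    have hbt : t = b := le_antisymm ht.2 this
    rw [hbt, hbv] at hcon
    exact lt_irrefl _ hcon
  have hc2 : IsCompact {t | t ∈ Icc p b ∧ φ t ≤ u} := by
    have : {t | t ∈ Icc p b ∧ φ t ≤ u} = Icc p b ∩ φ ⁻¹' (Iic u) := rfl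
    rw [this]
    exact isCompact_Icc.inter_right (isClosed_Iic.preimage hφ)
  obtain ⟨a, ⟨ha1, ha2⟩, ha3⟩ := hc2.exists_isGreatest ⟨p, ⟨le_rfl, hb1.1⟩, hp⟩
  have hau : φ a = u := by
    by_contra hne
    have hlt : φ a < u := lt_of_le_of_ne ha2 hne
    obtain ⟨t, ht, htv⟩ := intermediate_value_Icc ha1.2 hφ.continuousOn
      ⟨hlt.le, by rw [hbv]; exact huv⟩
    have : t ≤ a := ha3 ⟨⟨ha1.1.trans ht.1, ht.2⟩, htv.le⟩
    have hbt : t = a := le_antisymm this ht.1
    rw [hbt] at htv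
    exact hne htv
  refine ⟨a, b, ha1.1, ha1.2, hb1.2, hau, hbv, fun t ht => ⟨?_, hle t ⟨ha1.1.trans ht.1, ht.2⟩⟩⟩
  by_contra hcon
  push Not at hcon
  have : t ≤ a := ha3 ⟨⟨ha1.1.trans ht.1, ht.2⟩, hcon.le⟩
  have hbt : t = a := le_antisymm this ht.1
  rw [hbt, hau] at hcon
  exact lt_irrefl _ hcon

theorem cross {φ : ℝ → ℝ} (hφ : Continuous φ) {p q u v : ℝ} (huv : u ≤ v)
    (hp : φ p ≤ u) (hq : v ≤ φ q) :
    ∃ a b, uIcc a b ⊆ uIcc p q ∧ φ a = u ∧ φ b = v ∧ ∀ t ∈ uIcc a b, u ≤ φ t ∧ φ t ≤ v := by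
  rcases le_total p q with h | h
  · obtain ⟨a, b, h1, h2, h3, h4, h5, h6⟩ := cross_le hφ h huv hp hq
    refine ⟨a, b, ?_, h4, h5, ?_⟩
    · rw [uIcc_of_le h2, uIcc_of_le h]
      exact Icc_subset_Icc h1 h3
    · rw [uIcc_of_le h2]
      exact h6
  · obtain ⟨a, b, h1, h2, h3, h4, h5, h6⟩ := cross_le (φ := fun t => φ (-t))
      (hφ.comp continuous_neg) (p := -p) (q := -q) (by linarith) huv (by simpa using hp)
      (by simpa using hq)
    refine ⟨-a, -b, ?_, h4, h5, ?_⟩
    · rw [uIcc_of_ge (by linarith : -b ≤ -a), uIcc_of_ge h]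
      exact Icc_subset_Icc (by linarith) (by linarith)
    · rw [uIcc_of_ge (by linarith : -b ≤ -a)]
      intro t ht
      have := h6 (-t) ⟨by linarith [ht.2], by linarith [ht.1]⟩
      simpa using this

/-- A level without plateau is crossed at a point. -/
theorem cross_point {φ : ℝ → ℝ} (hφ : Continuous φ) {T0 T1 x : ℝ} (hT : T0 < T1)
    (h0 : φ T0 < x) (h1 : x < φ T1) (hx : interior (φ ⁻¹' {x}) = ∅) :
    ∃ t ∈ Icc T0 T1, φ t = x ∧ ∀ r > 0, (∃ s ∈ Icc T0 T1, |s - t| < r ∧ φ s < x) ∧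
      ∃ s ∈ Icc T0 T1, |s - t| < r ∧ x < φ s := by
  have hc1 : IsCompact {t | t ∈ Icc T0 T1 ∧ x ≤ φ t} := by
    have : {t | t ∈ Icc T0 T1 ∧ x ≤ φ t} = Icc T0 T1 ∩ φ ⁻¹' (Ici x) := rfl
    rw [this]
    exact isCompact_Icc.inter_right (isClosed_Ici.preimage hφ)
  set A : Set ℝ := {t | t ∈ Icc T0 T1 ∧ x < φ t} with hA
  have hAne : A.Nonempty := ⟨T1, ⟨hT.le, le_rfl⟩, h1⟩
  have hAbd : BddBelow A := ⟨T0, fun t ht => ht.1.1⟩
  set t := sInf A with ht
  have htm : t ∈ Icc T0 T1 := ⟨le_csInf hAne fun s hs => hs.1.1, csInf_le hAbd ⟨⟨hT.le, le_rfl⟩, h1⟩⟩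
  have hleft : ∀ s ∈ Icc T0 T1, s < t → φ s ≤ x := by
    intro s hs hst
    by_contra hcon
    push Not at hcon
    have : t ≤ s := csInf_le hAbd ⟨hs, hcon⟩
    linarith
  have hge : x ≤ φ t := by
    by_contra hcon
    push Not at hcon
    have hop : IsOpen {s | φ s < x} := isOpen_lt hφ continuous_const
    obtain ⟨r, hr, hball⟩ := Metric.isOpen_iff.mp hop t hcon
    obtain ⟨s, hs, hst⟩ := exists_lt_of_csInf_lt hAne (show sInf A < t + r by linarith)
    have hts : t ≤ s := csInf_le hAbd hs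
    have : s ∈ Metric.ball t r := by
      rw [Metric.mem_ball, Real.dist_eq, abs_lt]
      constructor <;> linarith
    have h3 := hball this
    simp only [mem_setOf_eq] at h3
    linarith [hs.2]
  have hle : φ t ≤ x := by
    by_contra hcon
    push Not at hcon
    have hT0 : T0 < t := by
      rcases eq_or_lt_of_le htm.1 with h | h
      · rw [← h] at hcon; linarith
      · exact h
    have hop : IsOpen {s | x < φ s} := isOpen_lt continuous_const hφ
    obtain ⟨r, hr, hball⟩ := Metric.isOpen_iff.mp hop t hcon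
    set s := max T0 (t - r / 2) with hs
    have hs1 : s < t := max_lt hT0 (by linarith)
    have hs2 : T0 ≤ s := le_max_left _ _
    have hs3 : t - r / 2 ≤ s := le_max_right _ _
    have : s ∈ Metric.ball t r := by
      rw [Metric.mem_ball, Real.dist_eq, abs_lt]
      constructor <;> linarith
    have h3 := hball this
    simp only [mem_setOf_eq] at h3
    have h4 := hleft s ⟨hs2, hs1.le.trans htm.2⟩ hs1
    linarith
  have hxt : φ t = x := le_antisymm hle hge
  refine ⟨t, htm, hxt, fun r hr => ⟨?_, ?_⟩⟩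
  · by_contra hcon
    push Not at hcon
    have hT0 : T0 < t := by
      rcases eq_or_lt_of_le htm.1 with h | h
      · rw [← h] at hxt; linarith
      · exact h
    have hsub : Ioo (max T0 (t - r)) t ⊆ φ ⁻¹' {x} := by
      intro s hs
      have hs1 : T0 < s := lt_of_le_of_lt (le_max_left _ _) hs.1
      have hs2 : t - r < s := lt_of_le_of_lt (le_max_right _ _) hs.1
      have hsm : s ∈ Icc T0 T1 := ⟨hs1.le, hs.2.le.trans htm.2⟩
      have h5 := hleft s hsm hs.2
      have h6 := hcon s hsm (by rw [abs_lt]; constructor <;> linarith [hs.2])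
      exact le_antisymm h5 h6
    have h7 := interior_maximal hsub isOpen_Ioo
    rw [hx] at h7
    have h8 : (Ioo (max T0 (t - r)) t).Nonempty := nonempty_Ioo.mpr (max_lt hT0 (by linarith))
    obtain ⟨y, hy⟩ := h8
    exact h7 hy
  · obtain ⟨s, hs, hst⟩ := exists_lt_of_csInf_lt hAne (show sInf A < t + r by linarith)
    have hts : t ≤ s := csInf_le hAbd hs
    exact ⟨s, hs.1, by rw [abs_lt]; constructor <;> linarith, hs.2⟩

/-- Only countably many levels have a plateau. -/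
theorem plateau_countable (φ : ℝ → ℝ) :
    {x : ℝ | (interior (φ ⁻¹' {x})).Nonempty}.Countable := by
  apply Set.PairwiseDisjoint.countable_of_nonempty_interior (s := fun x => φ ⁻¹' {x})
  · intro x _ y _ hxy
    rw [Function.onFun, Set.disjoint_left]
    intro t ht ht'
    exact hxy (ht.symm.trans ht')
  · intro x hx
    exact hx

/-! ### Bumps -/

/-- trapezoid -/
noncomputable def trap (d x : ℝ) : ℝ := max 0 (min 1 (2 - |x| / d))

theorem trap_cont (d : ℝ) : Continuous (trap d) := by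
  unfold trap
  fun_prop

theorem trap_one {d x : ℝ} (hd : 0 < d) (hx : |x| ≤ d) : trap d x = 1 := by
  unfold trap
  have : |x| / d ≤ 1 := (div_le_one hd).mpr hx
  rw [min_eq_left (by linarith), max_eq_right (by norm_num)]

theorem trap_zero {d x : ℝ} (hd : 0 < d) (hx : 2 * d ≤ |x|) : trap d x = 0 := by
  unfold trap
  have : 2 ≤ |x| / d := (le_div_iff₀ hd).mpr hx
  rw [min_eq_right (by linarith), max_eq_left (by linarith)]

theorem trap_abs (d x : ℝ) : |trap d x| ≤ 1 := by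
  unfold trap
  rw [abs_of_nonneg (le_max_left _ _)]
  exact max_le (by norm_num) (min_le_left _ _)

/-- clamped linear function -/
noncomputable def sp (s x : ℝ) : ℝ := max (-1) (min 1 (x / s))

theorem sp_cont (s : ℝ) : Continuous (sp s) := by
  unfold sp
  fun_prop

theorem sp_eq {s x : ℝ} (hs : 0 < s) (hx : |x| ≤ s) : sp s x = x / s := by
  unfold sp
  have h1 := abs_le.mp hx
  have h2 : x / s ≤ 1 := (div_le_one hs).mpr h1.2
  have h3 : -1 ≤ x / s := by
    rw [le_div_iff₀ hs]; linarith [h1.1]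
  rw [min_eq_right h2, max_eq_right h3]

theorem sp_abs (s x : ℝ) : |sp s x| ≤ 1 := by
  unfold sp
  rw [abs_le]
  exact ⟨le_max_left _ _, max_le (by norm_num) (min_le_left _ _)⟩

/-- sum of four bumps -/
noncomputable def bs (d : ℝ) (X : Fin 4 → ℝ) (A : Fin 4 → ℝ → ℝ) (x : ℝ) : ℝ :=
  ∑ i, trap d (x - X i) * A i (x - X i)

theorem bs_cont (d : ℝ) (X : Fin 4 → ℝ) (A : Fin 4 → ℝ → ℝ) (hA : ∀ i, Continuous (A i)) :
    Continuous (bs d X A) := by
  unfold bs
  refine continuous_finset_sum _ fun i _ => ?_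
  have h1 : Continuous fun x : ℝ => x - X i := continuous_id.sub continuous_const
  exact ((trap_cont d).comp h1).mul ((hA i).comp h1)

theorem bs_eq {d : ℝ} (hd : 0 < d) {X : Fin 4 → ℝ} (hX : ∀ i j, i ≠ j → 16 * d ≤ |X i - X j|)
    (A : Fin 4 → ℝ → ℝ) (i : Fin 4) {x : ℝ} (hx : |x - X i| ≤ 5 * d) :
    bs d X A x = trap d (x - X i) * A i (x - X i) := by
  unfold bs
  apply Finset.sum_eq_single i
  · intro j _ hj
    have h1 := hX i j (Ne.symm hj)
    have h2 : |X i - X j| ≤ |x - X i| + |x - X j| := by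
      have : X i - X j = (x - X j) - (x - X i) := by ring
      rw [this, add_comm]
      exact abs_sub _ _
    rw [trap_zero hd (by linarith), zero_mul]
  · intro h
    exact absurd (Finset.mem_univ i) h

theorem bs_abs (d : ℝ) (X : Fin 4 → ℝ) (A : Fin 4 → ℝ → ℝ) {K : ℝ}
    (hA : ∀ i x, |A i x| ≤ K) (x : ℝ) : |bs d X A x| ≤ 4 * K := by
  unfold bs
  calc |∑ i, trap d (x - X i) * A i (x - X i)| ≤ ∑ i, |trap d (x - X i) * A i (x - X i)| :=
        Finset.abs_sum_le_sum_abs _ _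
    _ ≤ ∑ _i : Fin 4, K := by
        refine Finset.sum_le_sum fun i _ => ?_
        rw [abs_mul]
        have h1 := trap_abs d (x - X i)
        have h2 := hA i (x - X i)
        have h3 := abs_nonneg (A i (x - X i))
        nlinarith
    _ = 4 * K := by simp

/-! ### The homeomorphism -/

/-- composition of a vertical and a horizontal shear -/
noncomputable def sh (f g : ℝ → ℝ) (x : ℂ) : ℂ :=
  x + (f x.re : ℂ) * I + ((g (x.im + f x.re) : ℝ) : ℂ)

theorem sh_re (f g : ℝ → ℝ) (x : ℂ) : (sh f g x).re = x.re + g (x.im + f x.re) := by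
  simp [sh]

theorem sh_im (f g : ℝ → ℝ) (x : ℂ) : (sh f g x).im = x.im + f x.re := by
  simp [sh]

theorem sh_cont {f g : ℝ → ℝ} (hf : Continuous f) (hg : Continuous g) : Continuous (sh f g) := by
  unfold sh
  fun_prop

theorem sh_inj (f g : ℝ → ℝ) : Function.Injective (sh f g) := by
  intro x y h
  have h1 := congrArg Complex.im h
  have h2 := congrArg Complex.re h
  rw [sh_im, sh_im] at h1
  rw [sh_re, sh_re, h1] at h2
  have h3 : x.re = y.re := by linarith
  rw [h3] at h1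
  exact Complex.ext h3 (by linarith)

theorem sh_dist {f g : ℝ → ℝ} {K L : ℝ} (hf : ∀ x, |f x| ≤ K) (hg : ∀ x, |g x| ≤ L) (x : ℂ) :
    ‖sh f g x - x‖ ≤ K + L := by
  have : sh f g x - x = (f x.re : ℂ) * I + ((g (x.im + f x.re) : ℝ) : ℂ) := by
    unfold sh; ring
  rw [this]
  refine (norm_add_le _ _).trans (add_le_add ?_ ?_)
  · rw [norm_mul, Complex.norm_I, mul_one, Complex.norm_real, Real.norm_eq_abs]
    exact hf _
  · rw [Complex.norm_real, Real.norm_eq_abs]
    exact hg _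

end Pool.Agent.N440.TJ
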