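import Mathlib
import Pool.Agent.N440.TJ.CL

set_option autoImplicit false
set_option maxHeartbeats 4000000

namespace Pool.Agent.N440.TJ

open Complex Set

theorem exists_sep (z : Fin 4 → ℂ) (hre : ∀ i j, i ≠ j → (z i).re ≠ (z j).re)
    (him : ∀ i j, i ≠ j → (z i).im ≠ (z j).im) :
    ∃ m : ℝ, 0 < m ∧ ∀ i j, i ≠ j → m ≤ |(z i).re - (z j).re| ∧ m ≤ |(z i).im - (z j).im| := by
  classical
  let S : Finset (Fin 4 × Fin 4) := Finset.univ.filter fun p => p.1 ≠ p.2
  have hS : S.Nonempty := ⟨(0, 1), by simp [S]⟩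
  obtain ⟨p, hp, hmin⟩ := S.exists_min_image
    (fun p => min |(z p.1).re - (z p.2).re| |(z p.1).im - (z p.2).im|) hS
  have hp' : p.1 ≠ p.2 := by simpa [S] using hp
  refine ⟨min |(z p.1).re - (z p.2).re| |(z p.1).im - (z p.2).im|, ?_, ?_⟩
  · exact lt_min (abs_pos.mpr (sub_ne_zero.mpr (hre _ _ hp')))
      (abs_pos.mpr (sub_ne_zero.mpr (him _ _ hp')))
  · intro i j hij
    have := hmin (i, j) (by simpa [S] using hij)
    exact ⟨this.trans (min_le_left _ _), this.trans (min_le_right _ _)⟩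

/-- direction of the `i`-th arc -/
noncomputable def dir (hor : Fin 4 → Bool) (i : Fin 4) : ℂ := if hor i then 1 else I

theorem CL (z : Fin 4 → ℂ) (hre : ∀ i j, i ≠ j → (z i).re ≠ (z j).re)
    (him : ∀ i j, i ≠ j → (z i).im ≠ (z j).im) :
    ∃ a0 η0 : ℝ, 0 < a0 ∧ 0 < η0 ∧ 8 * η0 < a0 * ‖z 1 - z 0‖ ∧
      ∀ (hor : Fin 4 → Bool) (κ : ℝ), 0 < κ → κ ≤ 1 → ∀ c : ℝ → ℂ, Continuous c →
      ∀ T0 T1 lam : ℝ, T0 < T1 → 0 < lam → lam ≤ (c T1).re - (c T0).re →
      (∀ t ∈ Icc T0 T1, ‖c t - c T0‖ ≤ 4 * lam) →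
      ∃ h : ℂ → ℂ, Continuous h ∧ Function.Injective h ∧ (∀ x, ‖h x - x‖ ≤ 20 * lam) ∧
        ∃ (b : ℂ) (p q : Fin 4 → ℝ), (∀ i, uIcc (p i) (q i) ⊆ Icc T0 T1) ∧
        (∀ i, ∀ t ∈ uIcc (p i) (q i),
          ‖h (c t) - (((a0 * lam : ℝ) : ℂ) * z i + b)‖ ≤ 6 * (η0 * lam) ∧
          |((h (c t) - (((a0 * lam : ℝ) : ℂ) * z i + b)) * (starRingEnd ℂ) (dir hor i)).im| ≤
            κ * (η0 * lam)) ∧
        (∀ i, ((h (c (p i)) - (((a0 * lam : ℝ) : ℂ) * z i + b)) *
          (starRingEnd ℂ) (dir hor i)).re ≤ - (3 * (η0 * lam))) ∧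
        (∀ i, 3 * (η0 * lam) ≤ ((h (c (q i)) - (((a0 * lam : ℝ) : ℂ) * z i + b)) *
          (starRingEnd ℂ) (dir hor i)).re) := by
  classical
  obtain ⟨m, hm0, hm⟩ := exists_sep z hre him
  set M : ℝ := ∑ i, ‖z i‖ with hM
  have hM0 : 0 ≤ M := Finset.sum_nonneg fun i _ => norm_nonneg _
  have hMi : ∀ i, ‖z i‖ ≤ M := fun i =>
    Finset.single_le_sum (f := fun i => ‖z i‖) (fun i _ => norm_nonneg _) (Finset.mem_univ i)
  set a0 : ℝ := 1 / (8 * (1 + M)) with ha0
  have ha0p : 0 < a0 := by positivity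
  have ha0M : a0 * M ≤ 1 / 8 := by
    rw [ha0]
    have : 1 / (8 * (1 + M)) * M = M / (8 * (1 + M)) := by ring
    rw [this, div_le_div_iff₀ (by positivity) (by norm_num)]
    nlinarith
  set η0 : ℝ := min (a0 * m / 16) (1 / 64) with hη0
  have hη0p : 0 < η0 := by positivity
  have hη1 : η0 ≤ a0 * m / 16 := min_le_left _ _
  have hη2 : η0 ≤ 1 / 64 := min_le_right _ _
  refine ⟨a0, η0, ha0p, hη0p, ?_, ?_⟩
  · have h1 : m ≤ ‖z 1 - z 0‖ := by
      have h2 := (hm 1 0 (by decide)).1
      have h3 := Complex.abs_re_le_norm (z 1 - z 0)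
      rw [Complex.sub_re] at h3
      exact h2.trans h3
    have h4 : a0 * m ≤ a0 * ‖z 1 - z 0‖ := mul_le_mul_of_nonneg_left h1 ha0p.le
    have h5 : 0 < a0 * m := by positivity
    linarith
  intro hor κ hκ0 hκ1 c hc T0 T1 lam hT hlam hrange hdiam
  set η : ℝ := η0 * lam with hη
  have hηp : 0 < η := by positivity
  have hηl : η ≤ lam / 64 := by
    rw [hη]; nlinarith
  set a : ℝ := a0 * lam with ha
  have hap : 0 < a := by positivity
  have ham : 16 * η ≤ a * m := by
    rw [hη, ha]; nlinarith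
  have haz : ∀ i, |a * (z i).re| ≤ lam / 8 ∧ |a * (z i).im| ≤ lam / 8 := by
    intro i
    have h1 := (Complex.abs_re_le_norm (z i)).trans (hMi i)
    have h2 := (Complex.abs_im_le_norm (z i)).trans (hMi i)
    have h3 : a * M ≤ lam / 8 := by rw [ha]; nlinarith
    constructor
    · rw [abs_mul, abs_of_pos hap]
      exact (mul_le_mul_of_nonneg_left h1 hap.le).trans h3
    · rw [abs_mul, abs_of_pos hap]
      exact (mul_le_mul_of_nonneg_left h2 hap.le).trans h3
  -- the real part of the path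
  set φ : ℝ → ℝ := fun t => (c t).re with hφ
  have hφc : Continuous φ := Complex.continuous_re.comp hc
  -- choice of the real part of `b`
  have hcount : (⋃ i : Fin 4, {x : ℝ | (interior (φ ⁻¹' {x + a * (z i).re})).Nonempty}).Countable := by
    refine Set.countable_iUnion fun i => ?_
    have h1 : {x : ℝ | (interior (φ ⁻¹' {x + a * (z i).re})).Nonempty} =
        (fun x => x + a * (z i).re) ⁻¹' {x : ℝ | (interior (φ ⁻¹' {x})).Nonempty} := rfl
    rw [h1]
    exact (plateau_countable φ).preimage_of_injOn (fun x _ y _ h => by simpa using h)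
  set mid : ℝ := (φ T0 + φ T1) / 2 with hmid
  obtain ⟨bx, hbx1, hbx2⟩ := (hcount.dense_compl ℝ).inter_open_nonempty
    (Ioo (mid - lam / 8) (mid + lam / 8)) isOpen_Ioo (nonempty_Ioo.mpr (by linarith))
  have hplat : ∀ i, interior (φ ⁻¹' {bx + a * (z i).re}) = ∅ := by
    intro i
    by_contra hne
    apply hbx2
    rw [Set.mem_iUnion]
    exact ⟨i, Set.nonempty_iff_ne_empty.mpr hne⟩
  set X : Fin 4 → ℝ := fun i => bx + a * (z i).re with hX
  set by' : ℝ := (c T0).im with hby
  set Y : Fin 4 → ℝ := fun i => by' + a * (z i).im with hY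
  have hXsep : ∀ i j, i ≠ j → 16 * η ≤ |X i - X j| := by
    intro i j hij
    have h1 : X i - X j = a * ((z i).re - (z j).re) := by simp only [hX]; ring
    rw [h1, abs_mul, abs_of_pos hap]
    exact ham.trans (mul_le_mul_of_nonneg_left (hm i j hij).1 hap.le)
  have hYsep : ∀ i j, i ≠ j → 16 * η ≤ |Y i - Y j| := by
    intro i j hij
    have h1 : Y i - Y j = a * ((z i).im - (z j).im) := by simp only [hY]; ring
    rw [h1, abs_mul, abs_of_pos hap]
    exact ham.trans (mul_le_mul_of_nonneg_left (hm i j hij).2 hap.le)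
  -- the crossing points
  have hpt : ∀ i, ∃ t ∈ Icc T0 T1, φ t = X i ∧ ∀ r > 0,
      (∃ s ∈ Icc T0 T1, |s - t| < r ∧ φ s < X i) ∧ ∃ s ∈ Icc T0 T1, |s - t| < r ∧ X i < φ s := by
    intro i
    have h1 := abs_le.mp (haz i).1
    have h2 : φ T1 - φ T0 ≥ lam := hrange
    have h3 := hbx1.1
    have h4 := hbx1.2
    apply cross_point hφc hT _ _ (hplat i)
    · rw [hmid] at h3; linarith [h1.1]
    · rw [hmid] at h4; linarith [h1.2]
  choose t ht1 ht2 ht3 using hpt
  -- short subarcs
  set ρ : ℝ := κ * η with hρ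
  have hρp : 0 < ρ := by positivity
  have hρη : ρ ≤ η := by rw [hρ]; nlinarith
  have harc : ∀ i, ∃ (s : ℝ) (p q : ℝ), 0 < s ∧ s ≤ ρ ∧ uIcc p q ⊆ Icc T0 T1 ∧
      φ p = X i - s ∧ φ q = X i + s ∧
      (∀ r ∈ uIcc p q, |φ r - X i| ≤ s ∧ |(c r).im - (c (t i)).im| ≤ ρ) := by
    intro i
    have him' : Continuous fun r => (c r).im := Complex.continuous_im.comp hc
    obtain ⟨r, hr, hr'⟩ := Metric.continuous_iff.mp him' (t i) ρ hρp
    obtain ⟨⟨s1, hs1, hs1r, hs1x⟩, ⟨s2, hs2, hs2r, hs2x⟩⟩ := ht3 i r hr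
    set s : ℝ := min (min (X i - φ s1) (φ s2 - X i)) ρ with hs
    have hs0 : 0 < s := lt_min (lt_min (by linarith) (by linarith)) hρp
    have hsa : s ≤ X i - φ s1 := (min_le_left _ _).trans (min_le_left _ _)
    have hsb : s ≤ φ s2 - X i := (min_le_left _ _).trans (min_le_right _ _)
    obtain ⟨p, q, hsub, hp, hq, hpq⟩ := cross hφc (p := s1) (q := s2)
      (u := X i - s) (v := X i + s) (by linarith) (by linarith) (by linarith)
    have hsubT : uIcc s1 s2 ⊆ Icc T0 T1 := by
      rw [← uIcc_of_le hT.le]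
      exact uIcc_subset_uIcc (by rw [uIcc_of_le hT.le]; exact hs1)
        (by rw [uIcc_of_le hT.le]; exact hs2)
    refine ⟨s, p, q, hs0, min_le_right _ _, hsub.trans hsubT, hp, hq, ?_⟩
    intro x hx
    refine ⟨?_, ?_⟩
    · have := hpq x hx
      rw [abs_le]; constructor <;> linarith [this.1, this.2]
    · have h1 : x ∈ uIcc s1 s2 := hsub hx
      have h2 : |x - t i| < r := by
        have h3 : uIcc s1 s2 ⊆ Ioo (t i - r) (t i + r) := by
          rw [abs_lt] at hs1r hs2r
          rcases le_total s1 s2 with h | h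
          · rw [uIcc_of_le h]
            intro y hy
            exact ⟨by linarith [hy.1, hs1r.1], by linarith [hy.2, hs2r.2]⟩
          · rw [uIcc_of_ge h]
            intro y hy
            exact ⟨by linarith [hy.1, hs2r.1], by linarith [hy.2, hs1r.2]⟩
        have h4 := h3 h1
        rw [abs_lt]; constructor <;> linarith [h4.1, h4.2]
      have h5 := hr' x (by rw [Real.dist_eq]; exact h2)
      rw [Real.dist_eq] at h5
      exact h5.le
  choose s p q hs0 hsρ hsub hp hq hpq using harc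
  -- the vertical shear
  set cc : Fin 4 → ℝ := fun i => Y i - (c (t i)).im with hcc
  have hccb : ∀ i, |cc i| ≤ lam / 8 + 4 * lam := by
    intro i
    have h1 : cc i = a * (z i).im - ((c (t i)).im - (c T0).im) := by
      simp only [hcc, hY, hby]; ring
    have h2 := Complex.abs_im_le_norm (c (t i) - c T0)
    rw [Complex.sub_im] at h2
    have h3 := hdiam (t i) (ht1 i)
    rw [h1]
    exact (abs_sub _ _).trans (add_le_add (haz i).2 (h2.trans h3))
  set f : ℝ → ℝ := bs η X (fun i x => cc i + 4 * η * sp (s i) x) with hf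
  have hfc : Continuous f := bs_cont _ _ _ fun i =>
    continuous_const.add (continuous_const.mul (sp_cont _))
  have hfb : ∀ x, |f x| ≤ 4 * (lam / 8 + 4 * lam + 4 * η) := by
    apply bs_abs
    intro i x
    refine (abs_add_le _ _).trans (add_le_add (hccb i) ?_)
    rw [abs_mul, abs_of_pos (by positivity : (0 : ℝ) < 4 * η)]
    have := sp_abs (s i) x
    nlinarith
  have hfv : ∀ i, ∀ r ∈ uIcc (p i) (q i), (c r).im + f (c r).re - Y i =
      ((c r).im - (c (t i)).im) + 4 * η * ((φ r - X i) / s i) := by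
    intro i r hr
    have h1 := (hpq i r hr).1
    have h2 : |(c r).re - X i| ≤ η := h1.trans ((hsρ i).trans hρη)
    rw [hf, bs_eq hηp hXsep _ i (by linarith), trap_one hηp h2, sp_eq (hs0 i) h1]
    simp only [hcc, hφ]
    ring
  -- the function `ψ`
  set ψ : ℝ → ℝ := fun r => (c r).im + f (c r).re with hψ
  have hψc : Continuous ψ :=
    (Complex.continuous_im.comp hc).add (hfc.comp (Complex.continuous_re.comp hc))
  have hψb : ∀ i, ∀ r ∈ uIcc (p i) (q i), |ψ r - Y i| ≤ 5 * η := by
    intro i r hr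
    have h1 := hpq i r hr
    have h2 := hfv i r hr
    have h3 : |(φ r - X i) / s i| ≤ 1 := by
      rw [abs_div, abs_of_pos (hs0 i), div_le_one (hs0 i)]
      exact h1.1
    have h4 : |4 * η * ((φ r - X i) / s i)| ≤ 4 * η := by
      rw [abs_mul, abs_of_pos (by positivity : (0 : ℝ) < 4 * η)]
      nlinarith
    show |(c r).im + f (c r).re - Y i| ≤ _
    rw [h2]
    refine (abs_add_le _ _).trans ?_
    linarith [h1.2]
  have hψp : ∀ i, ψ (p i) ≤ Y i - 3 * η := by
    intro i
    have h1 := hpq i (p i) left_mem_uIcc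
    have h2 := hfv i (p i) left_mem_uIcc
    rw [hp i] at h2
    have h3 : (X i - s i - X i) / s i = -1 := by
      have := (hs0 i).ne'
      field_simp
      ring
    rw [h3] at h2
    have h4 := (abs_le.mp h1.2).2
    show (c (p i)).im + f (c (p i)).re ≤ _
    linarith
  have hψq : ∀ i, Y i + 3 * η ≤ ψ (q i) := by
    intro i
    have h1 := hpq i (q i) right_mem_uIcc
    have h2 := hfv i (q i) right_mem_uIcc
    rw [hq i] at h2
    have h3 : (X i + s i - X i) / s i = 1 := by
      have := (hs0 i).ne'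
      field_simp
      ring
    rw [h3] at h2
    have h4 := (abs_le.mp h1.2).1
    show _ ≤ (c (q i)).im + f (c (q i)).re
    linarith
  -- shorter subarcs for the horizontal directions
  have harc2 : ∀ i, ∃ (p' q' : ℝ), uIcc p' q' ⊆ uIcc (p i) (q i) ∧
      (hor i = false → p' = p i ∧ q' = q i) ∧
      (hor i = true → ψ p' = Y i - ρ ∧ ψ q' = Y i + ρ ∧ ∀ r ∈ uIcc p' q', |ψ r - Y i| ≤ ρ) := by
    intro i
    rcases hb : hor i with _ | _
    · exact ⟨p i, q i, subset_rfl, fun _ => ⟨rfl, rfl⟩, fun h => by simp at h⟩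
    · obtain ⟨p', q', h1, h2, h3, h4⟩ := cross hψc (p := p i) (q := q i)
        (u := Y i - ρ) (v := Y i + ρ) (by linarith) (by linarith [hψp i])
        (by linarith [hψq i])
      refine ⟨p', q', h1, fun h => by simp at h, fun _ => ⟨h2, h3, fun r hr => ?_⟩⟩
      have := h4 r hr
      rw [abs_le]; constructor <;> linarith [this.1, this.2]
  choose p' q' hsub' hver hhor using harc2
  set g : ℝ → ℝ := bs η Y (fun i x => if hor i then 4 * η * sp ρ x else 0) with hg
  have hgc : Continuous g := by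
    apply bs_cont
    intro i
    by_cases h : hor i = true
    · simp only [h, if_true]
      exact continuous_const.mul (sp_cont _)
    · simp only [h, Bool.false_eq_true, if_false]
      exact continuous_const
  have hgb : ∀ x, |g x| ≤ 4 * (4 * η) := by
    apply bs_abs
    intro i x
    by_cases h : hor i = true
    · simp only [h, if_true]
      rw [abs_mul, abs_of_pos (by positivity : (0 : ℝ) < 4 * η)]
      have := sp_abs ρ x
      nlinarith
    · simp only [h, Bool.false_eq_true, if_false, abs_zero]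
      positivity
  have hgver : ∀ i, hor i = false → ∀ r ∈ uIcc (p i) (q i), g (ψ r) = 0 := by
    intro i hi r hr
    rw [hg, bs_eq hηp hYsep _ i (hψb i r hr)]
    simp [hi]
  have hghor : ∀ i, hor i = true → ∀ r ∈ uIcc (p' i) (q' i), g (ψ r) = 4 * η * ((ψ r - Y i) / ρ) := by
    intro i hi r hr
    have h1 := (hhor i hi).2.2 r hr
    rw [hg, bs_eq hηp hYsep _ i (by linarith), trap_one hηp (by linarith), sp_eq hρp h1]
    simp [hi]
  -- coordinates of the points
  have hv : ∀ i, (((a : ℝ) : ℂ) * z i + (⟨bx, by'⟩ : ℂ)).re = X i ∧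
      (((a : ℝ) : ℂ) * z i + (⟨bx, by'⟩ : ℂ)).im = Y i := by
    intro i
    constructor
    · simp only [Complex.add_re, Complex.re_ofReal_mul, hX]; ring
    · simp only [Complex.add_im, Complex.im_ofReal_mul, hY]; ring
  have hcre : ∀ i r, (sh f g (c r) - (((a : ℝ) : ℂ) * z i + (⟨bx, by'⟩ : ℂ))).re =
      φ r - X i + g (ψ r) := by
    intro i r
    rw [Complex.sub_re, sh_re, (hv i).1]
    simp only [hφ, hψ]; ring
  have hcim : ∀ i r, (sh f g (c r) - (((a : ℝ) : ℂ) * z i + (⟨bx, by'⟩ : ℂ))).im =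
      ψ r - Y i := by
    intro i r
    rw [Complex.sub_im, sh_im, (hv i).2]
  refine ⟨sh f g, sh_cont hfc hgc, sh_inj f g, ?_, ⟨bx, by'⟩, p', q', ?_, ?_, ?_, ?_⟩
  · intro x
    refine (sh_dist hfb hgb x).trans ?_
    linarith
  · intro i
    exact (hsub' i).trans (hsub i)
  · intro i r hr
    have hr2 : r ∈ uIcc (p i) (q i) := hsub' i hr
    have h1 := hpq i r hr2
    set w : ℂ := sh f g (c r) - (((a : ℝ) : ℂ) * z i + (⟨bx, by'⟩ : ℂ)) with hw
    have hwre := hcre i r
    have hwim := hcim i r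
    rw [← hw] at hwre hwim
    rcases hb : hor i with _ | _
    · -- vertical
      rw [hgver i hb r hr2, add_zero] at hwre
      have h2 : |w.re| ≤ ρ := by rw [hwre]; exact h1.1.trans (hsρ i)
      have h3 : |w.im| ≤ 5 * η := by rw [hwim]; exact hψb i r hr2
      refine ⟨?_, ?_⟩
      · exact (Complex.norm_le_abs_re_add_abs_im w).trans (by linarith)
      · have : (w * (starRingEnd ℂ) (dir hor i)).im = - w.re := by
          simp [dir, hb]
        rw [this, abs_neg]
        exact h2
    · -- horizontal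
      have h4 := hghor i hb r hr
      rw [h4] at hwre
      have h5 := (hhor i hb).2.2 r hr
      have h6 : |4 * η * ((ψ r - Y i) / ρ)| ≤ 4 * η := by
        rw [abs_mul, abs_of_pos (by positivity : (0 : ℝ) < 4 * η), abs_div, abs_of_pos hρp]
        have : |ψ r - Y i| / ρ ≤ 1 := (div_le_one hρp).mpr h5
        nlinarith
      have h2 : |w.re| ≤ 5 * η := by
        rw [hwre]
        refine (abs_add_le _ _).trans ?_
        linarith [h1.1, hsρ i]
      have h3 : |w.im| ≤ ρ := by rw [hwim]; exact h5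
      refine ⟨?_, ?_⟩
      · exact (Complex.norm_le_abs_re_add_abs_im w).trans (by linarith)
      · have : (w * (starRingEnd ℂ) (dir hor i)).im = w.im := by
          simp [dir, hb]
        rw [this]
        exact h3
  · intro i
    set w : ℂ := sh f g (c (p' i)) - (((a : ℝ) : ℂ) * z i + (⟨bx, by'⟩ : ℂ)) with hw
    have hwre := hcre i (p' i)
    have hwim := hcim i (p' i)
    rw [← hw] at hwre hwim
    rcases hb : hor i with _ | _
    · have : (w * (starRingEnd ℂ) (dir hor i)).re = w.im := by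
        simp [dir, hb]
      rw [this, hwim, (hver i hb).1]
      linarith [hψp i]
    · have : (w * (starRingEnd ℂ) (dir hor i)).re = w.re := by
        simp [dir, hb]
      rw [this, hwre, hghor i hb _ left_mem_uIcc, (hhor i hb).1]
      have h1 := (hpq i (p' i) (hsub' i left_mem_uIcc)).1
      have h2 := (abs_le.mp h1).2
      have h3 : (Y i - ρ - Y i) / ρ = -1 := by
        have := hρp.ne'
        field_simp
        ring
      rw [h3]
      linarith [hsρ i]
  · intro i
    set w : ℂ := sh f g (c (q' i)) - (((a : ℝ) : ℂ) * z i + (⟨bx, by'⟩ : ℂ)) with hw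
    have hwre := hcre i (q' i)
    have hwim := hcim i (q' i)
    rw [← hw] at hwre hwim
    rcases hb : hor i with _ | _
    · have : (w * (starRingEnd ℂ) (dir hor i)).re = w.im := by
        simp [dir, hb]
      rw [this, hwim, (hver i hb).2]
      linarith [hψq i]
    · have : (w * (starRingEnd ℂ) (dir hor i)).re = w.re := by
        simp [dir, hb]
      rw [this, hwre, hghor i hb _ right_mem_uIcc, (hhor i hb).2.1]
      have h1 := (hpq i (q' i) (hsub' i right_mem_uIcc)).1
      have h2 := (abs_le.mp h1).1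
      have h3 : (Y i + ρ - Y i) / ρ = 1 := by
        have := hρp.ne'
        field_simp
        ring
      rw [h3]
      linarith [hsρ i]

end Pool.Agent.N440.TJ
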