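import Mathlib
import Pool.Agent.Helper475.Miranda

set_option autoImplicit false

/-!
Four crossing arcs near the vertices of a quadrilateral contain the vertices of a similar copy of
every nearby quadrilateral (theorem of Poincaré and Miranda in dimension four).
-/

namespace Pool.Agent.N440.TJ

open Complex Set

/-- The two equations which say that `P` is a similar copy of `z`. -/
noncomputable def G (z : Fin 4 → ℂ) (P : Fin 4 → ℂ) : ℂ × ℂ :=
  ((z 1 - z 0) * (P 2 - P 0) - (z 2 - z 0) * (P 1 - P 0),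
   (z 1 - z 0) * (P 3 - P 0) - (z 3 - z 0) * (P 1 - P 0))

theorem decomp (x u : ℂ) (hu : ‖u‖ = 1) :
    ‖x - (((x * (starRingEnd ℂ) u).re : ℝ) : ℂ) * u‖ = |(x * (starRingEnd ℂ) u).im| := by
  have h1 : (starRingEnd ℂ) u * u = 1 := by
    rw [mul_comm, Complex.mul_conj, Complex.normSq_eq_norm_sq, hu]
    norm_num
  have h2 : x - (((x * (starRingEnd ℂ) u).re : ℝ) : ℂ) * u =
      ((((x * (starRingEnd ℂ) u).im : ℝ) : ℂ) * I) * u := by
    have h3 : x * (starRingEnd ℂ) u = (((x * (starRingEnd ℂ) u).re : ℝ) : ℂ) +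
        (((x * (starRingEnd ℂ) u).im : ℝ) : ℂ) * I := (Complex.re_add_im _).symm
    calc x - (((x * (starRingEnd ℂ) u).re : ℝ) : ℂ) * u
        = (x * (starRingEnd ℂ) u) * u - (((x * (starRingEnd ℂ) u).re : ℝ) : ℂ) * u := by
          rw [mul_assoc, h1, mul_one]
      _ = (x * (starRingEnd ℂ) u - (((x * (starRingEnd ℂ) u).re : ℝ) : ℂ)) * u := by ring
      _ = _ := by
          congr 1
          linear_combination h3
  rw [h2, norm_mul, norm_mul, hu, Complex.norm_I, mul_one, mul_one, Complex.norm_real,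
    Real.norm_eq_abs]

/-- The equations along the four directions, as a linear map. -/
noncomputable def T (z u : Fin 4 → ℂ) : (Fin 4 → ℝ) →ₗ[ℝ] ℂ × ℂ where
  toFun τ := G z (fun i => (τ i : ℂ) * u i)
  map_add' := by
    intro x y
    unfold G
    ext <;> simp <;> ring
  map_smul' := by
    intro r x
    unfold G
    simp only [Pi.smul_apply, smul_eq_mul, Complex.ofReal_mul, RingHom.id_apply, Prod.smul_mk,
      Complex.real_smul]
    refine Prod.ext ?_ ?_ <;> simp only [] <;> ring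

theorem exists_inv (z u : Fin 4 → ℂ) (hz : z 0 ≠ z 1)
    (hT : ∀ (a b : ℂ) (τ : Fin 4 → ℝ), (∀ i, a * z i + b = τ i * u i) → ∀ i, τ i = 0) :
    ∃ (S : ℂ × ℂ → (Fin 4 → ℝ)) (C : ℝ), 0 ≤ C ∧ Continuous S ∧ (∀ y i, |S y i| ≤ C * ‖y‖) ∧
      (∀ x y, S (x - y) = S x - S y) ∧ (∀ τ : Fin 4 → ℝ, S (G z (fun i => (τ i : ℂ) * u i)) = τ) ∧
      (∀ y, S y = 0 → y = 0) := by
  have hinj : Function.Injective (T z u) := by
    rw [← LinearMap.ker_eq_bot, LinearMap.ker_eq_bot']
    intro τ hτ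
    have h1 : G z (fun i => (τ i : ℂ) * u i) = 0 := hτ
    unfold G at h1
    rw [Prod.mk_eq_zero] at h1
    obtain ⟨h2, h3⟩ := h1
    have hd : z 1 - z 0 ≠ 0 := sub_ne_zero.mpr (Ne.symm hz)
    funext i
    apply hT (((τ 1 : ℂ) * u 1 - τ 0 * u 0) / (z 1 - z 0))
      (τ 0 * u 0 - ((τ 1 : ℂ) * u 1 - τ 0 * u 0) / (z 1 - z 0) * z 0) τ
    intro j
    fin_cases j
    · simp
    · simp only [Fin.mk_one]
      field_simp
      ring
    · simp only [Fin.reduceFinMk]
      field_simp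
      linear_combination -h2
    · simp only [Fin.reduceFinMk]
      field_simp
      linear_combination -h3
  have hdim : Module.finrank ℝ (Fin 4 → ℝ) = Module.finrank ℝ (ℂ × ℂ) := by
    rw [Module.finrank_fin_fun, Module.finrank_prod, Complex.finrank_real_complex]
  let e : (Fin 4 → ℝ) ≃ₗ[ℝ] ℂ × ℂ := LinearMap.linearEquivOfInjective (T z u) hinj hdim
  let S : ℂ × ℂ →L[ℝ] (Fin 4 → ℝ) := LinearMap.toContinuousLinearMap e.symm.toLinearMap
  have hS : ∀ y, S y = e.symm y := fun y => rfl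
  refine ⟨S, ‖S‖, norm_nonneg _, S.continuous, ?_, fun x y => map_sub S x y, ?_, ?_⟩
  · intro y i
    calc |S y i| = ‖S y i‖ := (Real.norm_eq_abs _).symm
      _ ≤ ‖S y‖ := norm_le_pi_norm (S y) i
      _ ≤ ‖S‖ * ‖y‖ := S.le_opNorm y
  · intro τ
    have : G z (fun i => (τ i : ℂ) * u i) = e τ := rfl
    rw [this, hS, LinearEquiv.symm_apply_apply]
  · intro y hy
    rw [hS] at hy
    exact (LinearEquiv.map_eq_zero_iff _).mp hy

theorem ML (z u : Fin 4 → ℂ) (hu : ∀ i, ‖u i‖ = 1) (hz : z 0 ≠ z 1)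
    (hT : ∀ (a b : ℂ) (τ : Fin 4 → ℝ), (∀ i, a * z i + b = τ i * u i) → ∀ i, τ i = 0) (R : ℝ) :
    ∃ κ : ℝ, 0 < κ ∧ κ ≤ 1 ∧ ∀ z' : Fin 4 → ℂ, (∀ i, ‖z' i - z i‖ ≤ κ) → z' 0 ≠ z' 1 →
      ∀ (η : ℝ) (a b : ℂ), 0 < η → ‖a‖ ≤ R * η → 8 * η < ‖a‖ * ‖z 1 - z 0‖ →
      ∀ c : ℝ → ℂ, Continuous c → ∀ p q : Fin 4 → ℝ,
      (∀ i, ∀ t ∈ uIcc (p i) (q i), ‖c t - (a * z i + b)‖ ≤ 7 * η ∧
        |((c t - (a * z i + b)) * (starRingEnd ℂ) (u i)).im| ≤ 2 * κ * η) →
      (∀ i, ((c (p i) - (a * z i + b)) * (starRingEnd ℂ) (u i)).re ≤ - (2 * η)) →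
      (∀ i, 2 * η ≤ ((c (q i) - (a * z i + b)) * (starRingEnd ℂ) (u i)).re) →
      ∃ t : Fin 4 → ℝ, (∀ i, t i ∈ uIcc (p i) (q i)) ∧
        ∃ a' b' : ℂ, a' ≠ 0 ∧ ∀ i, c (t i) = a' * z' i + b' := by
  obtain ⟨S, C, hC, hSc, hSb, hSs, hSG, hS0⟩ := exists_inv z u hz hT
  set M : ℝ := ∑ i, ‖z i - z 0‖ with hM
  have hM0 : 0 ≤ M := Finset.sum_nonneg fun i _ => norm_nonneg _
  have hMi : ∀ i, ‖z i - z 0‖ ≤ M := fun i =>
    Finset.single_le_sum (f := fun i => ‖z i - z 0‖) (fun i _ => norm_nonneg _) (Finset.mem_univ i)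
  set B : ℝ := 4 * (|R| * M + 14) + 8 * M with hB
  have hB0 : 0 < B := by positivity
  set κ : ℝ := 1 / (C * B + 1) with hκ
  have hκ0 : 0 < κ := by positivity
  have hκ1 : κ ≤ 1 := by
    rw [hκ, div_le_one (by positivity)]
    have : 0 ≤ C * B := by positivity
    linarith
  have hκC : C * (κ * B) ≤ 1 := by
    rw [hκ]
    have h5 : C * (1 / (C * B + 1) * B) = (C * B) / (C * B + 1) := by ring
    rw [h5, div_le_one (by positivity)]
    linarith
  refine ⟨κ, hκ0, hκ1, ?_⟩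
  intro z' hz' hz01 η a b hη ha h8 c hc p q harc hp hq
  -- the four points
  let pt : (Fin 4 → ℝ) → Fin 4 → ℝ := fun x i => p i + x i * (q i - p i)
  have hpt : ∀ x : Fin 4 → ℝ, (∀ i, 0 ≤ x i ∧ x i ≤ 1) → ∀ i, pt x i ∈ uIcc (p i) (q i) := by
    intro x hx i
    rw [← segment_eq_uIcc]
    refine ⟨1 - x i, x i, by linarith [(hx i).2], (hx i).1, by ring, ?_⟩
    simp only [pt, smul_eq_mul]
    ring
  let P : (Fin 4 → ℝ) → Fin 4 → ℂ := fun x i => c (pt x i)
  let τ : (Fin 4 → ℝ) → Fin 4 → ℝ := fun x i =>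
    ((P x i - (a * z i + b)) * (starRingEnd ℂ) (u i)).re
  let F : (Fin 4 → ℝ) → (Fin 4 → ℝ) := fun x => S (G z' (P x))
  have hFc : Continuous F := by
    apply hSc.comp
    unfold G
    have : ∀ i, Continuous fun x => P x i := by
      intro i
      apply hc.comp
      fun_prop
    fun_prop
  have hest : ∀ x : Fin 4 → ℝ, (∀ i, 0 ≤ x i ∧ x i ≤ 1) → ∀ i, |F x i - τ x i| ≤ η := by
    intro x hx i
    have h1 : F x i - τ x i = S (G z' (P x) - G z (fun i => (τ x i : ℂ) * u i)) i := by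
      rw [hSs, hSG]
      rfl
    rw [h1]
    refine (hSb _ i).trans ?_
    have hL : ∀ i, ‖P x i - P x 0‖ ≤ (|R| * M + 14) * η := by
      intro i
      have e1 := (harc i _ (hpt x hx i)).1
      have e2 := (harc 0 _ (hpt x hx 0)).1
      have e3 : P x i - P x 0 = (P x i - (a * z i + b)) - (P x 0 - (a * z 0 + b)) +
          a * (z i - z 0) := by ring
      calc ‖P x i - P x 0‖ ≤ ‖P x i - (a * z i + b)‖ + ‖P x 0 - (a * z 0 + b)‖ +
            ‖a * (z i - z 0)‖ := by
            rw [e3]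
            exact (norm_add_le _ _).trans (add_le_add_left (norm_sub_le _ _) _)
        _ ≤ 7 * η + 7 * η + (|R| * η) * M := by
            rw [norm_mul]
            refine add_le_add (add_le_add e1 e2) ?_
            apply mul_le_mul (ha.trans (mul_le_mul_of_nonneg_right (le_abs_self R) hη.le)) (hMi i)
              (norm_nonneg _) (by positivity)
        _ = (|R| * M + 14) * η := by ring
    let w : Fin 4 → ℂ := fun i => P x i - (a * z i + b) - (τ x i : ℂ) * u i
    have hw : ∀ i, ‖w i‖ ≤ 2 * κ * η := by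
      intro i
      have := (harc i _ (hpt x hx i)).2
      rw [← decomp _ _ (hu i)] at this
      exact this
    have hkk : ∀ i, ‖(z' i - z i) - (z' 0 - z 0)‖ ≤ 2 * κ := by
      intro i
      have := norm_sub_le (z' i - z i) (z' 0 - z 0)
      linarith [hz' i, hz' 0]
    have hww : ∀ i, ‖w i - w 0‖ ≤ 4 * κ * η := by
      intro i
      have := norm_sub_le (w i) (w 0)
      linarith [hw i, hw 0]
    have hgen : ∀ j : Fin 4, ‖((z' 1 - z 1) - (z' 0 - z 0)) * (P x j - P x 0) -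
        ((z' j - z j) - (z' 0 - z 0)) * (P x 1 - P x 0) + (z 1 - z 0) * (w j - w 0) -
        (z j - z 0) * (w 1 - w 0)‖ ≤ κ * B * η := by
      intro j
      have n1 : ‖((z' 1 - z 1) - (z' 0 - z 0)) * (P x j - P x 0)‖ ≤
          2 * κ * ((|R| * M + 14) * η) := by
        rw [norm_mul]
        exact mul_le_mul (hkk 1) (hL j) (norm_nonneg _) (by positivity)
      have n2 : ‖((z' j - z j) - (z' 0 - z 0)) * (P x 1 - P x 0)‖ ≤
          2 * κ * ((|R| * M + 14) * η) := by
        rw [norm_mul]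
        exact mul_le_mul (hkk j) (hL 1) (norm_nonneg _) (by positivity)
      have n3 : ‖(z 1 - z 0) * (w j - w 0)‖ ≤ M * (4 * κ * η) := by
        rw [norm_mul]
        exact mul_le_mul (hMi 1) (hww j) (norm_nonneg _) hM0
      have n4 : ‖(z j - z 0) * (w 1 - w 0)‖ ≤ M * (4 * κ * η) := by
        rw [norm_mul]
        exact mul_le_mul (hMi j) (hww 1) (norm_nonneg _) hM0
      have t1 := norm_sub_le (((z' 1 - z 1) - (z' 0 - z 0)) * (P x j - P x 0) -
        ((z' j - z j) - (z' 0 - z 0)) * (P x 1 - P x 0) + (z 1 - z 0) * (w j - w 0))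
        ((z j - z 0) * (w 1 - w 0))
      have t2 := norm_add_le (((z' 1 - z 1) - (z' 0 - z 0)) * (P x j - P x 0) -
        ((z' j - z j) - (z' 0 - z 0)) * (P x 1 - P x 0)) ((z 1 - z 0) * (w j - w 0))
      have t3 := norm_sub_le (((z' 1 - z 1) - (z' 0 - z 0)) * (P x j - P x 0))
        (((z' j - z j) - (z' 0 - z 0)) * (P x 1 - P x 0))
      have t4 : κ * B * η = 2 * κ * ((|R| * M + 14) * η) + 2 * κ * ((|R| * M + 14) * η) +
          M * (4 * κ * η) + M * (4 * κ * η) := by
        rw [hB]; ring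
      rw [t4]
      linarith
    have hE : ‖G z' (P x) - G z (fun i => (τ x i : ℂ) * u i)‖ ≤ κ * B * η := by
      rw [Prod.norm_def]
      apply max_le
      · have : (G z' (P x) - G z (fun i => (τ x i : ℂ) * u i)).1 =
            ((z' 1 - z 1) - (z' 0 - z 0)) * (P x 2 - P x 0) -
            ((z' 2 - z 2) - (z' 0 - z 0)) * (P x 1 - P x 0) + (z 1 - z 0) * (w 2 - w 0) -
            (z 2 - z 0) * (w 1 - w 0) := by
          simp only [G, Prod.fst_sub, w]
          ring
        rw [this]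
        exact hgen 2
      · have : (G z' (P x) - G z (fun i => (τ x i : ℂ) * u i)).2 =
            ((z' 1 - z 1) - (z' 0 - z 0)) * (P x 3 - P x 0) -
            ((z' 3 - z 3) - (z' 0 - z 0)) * (P x 1 - P x 0) + (z 1 - z 0) * (w 3 - w 0) -
            (z 3 - z 0) * (w 1 - w 0) := by
          simp only [G, Prod.snd_sub, w]
          ring
        rw [this]
        exact hgen 3
    calc C * ‖G z' (P x) - G z (fun i => (τ x i : ℂ) * u i)‖ ≤ C * (κ * B * η) :=
          mul_le_mul_of_nonneg_left hE hC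
      _ = C * (κ * B) * η := by ring
      _ ≤ 1 * η := mul_le_mul_of_nonneg_right hκC hη.le
      _ = η := one_mul η
  obtain ⟨x, hx, hFx⟩ := Pool.Agent.Helper475.Miranda.poincare_miranda 4 F hFc.continuousOn
    (by
      intro x hx i hi
      have h1 := abs_le.mp (hest x hx i)
      have h2 : τ x i ≤ - (2 * η) := by
        have : pt x i = p i := by simp only [pt, hi]; ring
        simp only [τ, P, this]
        exact hp i
      linarith [h1.2])
    (by
      intro x hx i hi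
      have h1 := abs_le.mp (hest x hx i)
      have h2 : 2 * η ≤ τ x i := by
        have : pt x i = q i := by simp only [pt, hi]; ring
        simp only [τ, P, this]
        exact hq i
      linarith [h1.1])
  have hG : G z' (P x) = 0 := hS0 _ hFx
  have hτ : ∀ i, |τ x i| ≤ η := by
    intro i
    have := hest x hx i
    rw [hFx] at this
    simpa using this
  have hclose : ∀ i, ‖P x i - (a * z i + b)‖ ≤ 3 * η := by
    intro i
    have h1 := (harc i _ (hpt x hx i)).2
    rw [← decomp _ _ (hu i)] at h1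
    have h2 : P x i - (a * z i + b) = (P x i - (a * z i + b) - (τ x i : ℂ) * u i) +
        (τ x i : ℂ) * u i := by ring
    have h3 : ‖(τ x i : ℂ) * u i‖ ≤ η := by
      rw [norm_mul, hu i, mul_one, Complex.norm_real, Real.norm_eq_abs]
      exact hτ i
    have h4 : ‖P x i - (a * z i + b) - (τ x i : ℂ) * u i‖ ≤ 2 * κ * η := h1
    have h5 : 2 * κ * η ≤ 2 * η := by nlinarith
    rw [h2]
    exact (norm_add_le _ _).trans (by linarith)
  have hne : P x 1 ≠ P x 0 := by
    intro h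
    have h1 : a * (z 1 - z 0) = (P x 0 - (a * z 0 + b)) - (P x 1 - (a * z 1 + b)) := by
      rw [h]; ring
    have h2 : ‖a * (z 1 - z 0)‖ ≤ 3 * η + 3 * η := by
      rw [h1]
      exact (norm_sub_le _ _).trans (add_le_add (hclose 0) (hclose 1))
    rw [norm_mul] at h2
    linarith
  have hd : z' 1 - z' 0 ≠ 0 := sub_ne_zero.mpr (Ne.symm hz01)
  refine ⟨pt x, hpt x hx, (P x 1 - P x 0) / (z' 1 - z' 0),
    P x 0 - (P x 1 - P x 0) / (z' 1 - z' 0) * z' 0, ?_, ?_⟩
  · exact div_ne_zero (sub_ne_zero.mpr hne) hd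
  · unfold G at hG
    rw [Prod.mk_eq_zero] at hG
    obtain ⟨g1, g2⟩ := hG
    intro i
    show P x i = _
    fin_cases i
    · simp
    · simp only [Fin.mk_one]
      field_simp
      ring
    · simp only [Fin.reduceFinMk]
      field_simp
      linear_combination g1
    · simp only [Fin.reduceFinMk]
      field_simp
      linear_combination g2

end Pool.Agent.N440.TJ
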