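import Mathlib
import Pool.Agent.N440.TJ.ML
import Pool.Agent.N440.TJ.CL2

set_option autoImplicit false
set_option maxHeartbeats 4000000

namespace Pool.Agent.N440.TJ

open Complex Set

/-! ### Directions of the four arcs -/

theorem dir_norm (hor : Fin 4 → Bool) (i : Fin 4) : ‖dir hor i‖ = 1 := by
  unfold dir
  split_ifs <;> simp

theorem exists_dir (z : Fin 4 → ℂ) (hz : Function.Injective z) :
    ∃ hor : Fin 4 → Bool, ∀ (a b : ℂ) (τ : Fin 4 → ℝ),
      (∀ i, a * z i + b = τ i * dir hor i) → ∀ i, τ i = 0 := by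
  -- vertical arcs give real parts zero
  have hver : ∀ (hor : Fin 4 → Bool) (a b : ℂ) (τ : Fin 4 → ℝ),
      (∀ i, a * z i + b = τ i * dir hor i) → ∀ i, hor i = false → (a * z i + b).re = 0 := by
    intro hor a b τ h i hi
    rw [h i]
    simp [dir, hi]
  have hhor : ∀ (hor : Fin 4 → Bool) (a b : ℂ) (τ : Fin 4 → ℝ),
      (∀ i, a * z i + b = τ i * dir hor i) → ∀ i, hor i = true → (a * z i + b).im = 0 := by
    intro hor a b τ h i hi
    rw [h i]
    simp [dir, hi]
  have hfin : ∀ (hor : Fin 4 → Bool) (a b : ℂ) (τ : Fin 4 → ℝ),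
      (∀ i, a * z i + b = τ i * dir hor i) → a = 0 → b = 0 → ∀ i, τ i = 0 := by
    intro hor a b τ h ha hb i
    have h1 := h i
    rw [ha, hb, zero_mul, zero_add] at h1
    have h2 : dir hor i ≠ 0 := by
      intro h3
      have := dir_norm hor i
      rw [h3, norm_zero] at this
      norm_num at this
    have h3 : (τ i : ℂ) = 0 := by
      rcases mul_eq_zero.mp h1.symm with h4 | h4
      · exact h4
      · exact absurd h4 h2
    exact_mod_cast h3
  have hsub : ∀ (a b : ℂ) (i j : Fin 4), (a * z i + b).re = 0 → (a * z j + b).re = 0 →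
      (a * (z i - z j)).re = 0 := by
    intro a b i j h1 h2
    have : a * (z i - z j) = (a * z i + b) - (a * z j + b) := by ring
    rw [this, Complex.sub_re, h1, h2, sub_zero]
  have hsubi : ∀ (a b : ℂ) (i j : Fin 4), (a * z i + b).im = 0 → (a * z j + b).im = 0 →
      (a * (z i - z j)).im = 0 := by
    intro a b i j h1 h2
    have : a * (z i - z j) = (a * z i + b) - (a * z j + b) := by ring
    rw [this, Complex.sub_im, h1, h2, sub_zero]
  by_cases hA : ∀ a : ℂ, (a * (z 0 - z 1)).re = 0 → (a * (z 0 - z 2)).re = 0 → a = 0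
  · refine ⟨![false, false, false, true], fun a b τ h => ?_⟩
    have r0 := hver _ a b τ h 0 rfl
    have r1 := hver _ a b τ h 1 rfl
    have r2 := hver _ a b τ h 2 rfl
    have r3 := hhor _ a b τ h 3 rfl
    have ha := hA a (hsub a b 0 1 r0 r1) (hsub a b 0 2 r0 r2)
    rw [ha, zero_mul, zero_add] at r0 r3
    exact hfin _ a b τ h ha (Complex.ext r0 r3)
  by_cases hB : ∀ a : ℂ, (a * (z 0 - z 1)).re = 0 → (a * (z 0 - z 3)).re = 0 → a = 0
  · refine ⟨![false, false, true, false], fun a b τ h => ?_⟩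
    have r0 := hver _ a b τ h 0 rfl
    have r1 := hver _ a b τ h 1 rfl
    have r2 := hhor _ a b τ h 2 rfl
    have r3 := hver _ a b τ h 3 rfl
    have ha := hB a (hsub a b 0 1 r0 r1) (hsub a b 0 3 r0 r3)
    rw [ha, zero_mul, zero_add] at r0 r2
    exact hfin _ a b τ h ha (Complex.ext r0 r2)
  push Not at hA hB
  obtain ⟨a1, h11, h12, h13⟩ := hA
  obtain ⟨a2, h21, h22, h23⟩ := hB
  -- `a2` is a real multiple of `a1`
  have h01 : z 0 - z 1 ≠ 0 := sub_ne_zero.mpr (hz.ne (by decide))
  have h23' : z 2 - z 3 ≠ 0 := sub_ne_zero.mpr (hz.ne (by decide))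
  have im1 : (a1 * (z 0 - z 1)).im ≠ 0 := by
    intro h
    exact mul_ne_zero h13 h01 (Complex.ext h11 h)
  have im2 : (a2 * (z 0 - z 1)).im ≠ 0 := by
    intro h
    exact mul_ne_zero h23 h01 (Complex.ext h21 h)
  obtain ⟨r1, e1, hr1⟩ : ∃ r1 : ℝ, a1 * (z 0 - z 1) = (r1 : ℂ) * I ∧ r1 ≠ 0 :=
    ⟨_, by apply Complex.ext <;> simp [h11], im1⟩
  obtain ⟨r2, e2, hr2⟩ : ∃ r2 : ℝ, a2 * (z 0 - z 1) = (r2 : ℂ) * I ∧ r2 ≠ 0 :=
    ⟨_, by apply Complex.ext <;> simp [h21], im2⟩
  have hr2' : (r2 : ℂ) ≠ 0 := by exact_mod_cast hr2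
  have hmul : a1 = ((r1 / r2 : ℝ) : ℂ) * a2 := by
    have e3 : (a1 - ((r1 / r2 : ℝ) : ℂ) * a2) * (z 0 - z 1) = 0 := by
      rw [sub_mul, mul_assoc, e2, e1]
      push_cast
      field_simp
      ring
    rcases mul_eq_zero.mp e3 with h | h
    · exact sub_eq_zero.mp h
    · exact absurd h h01
  have h14 : (a1 * (z 0 - z 3)).re = 0 := by
    rw [hmul, mul_assoc, Complex.re_ofReal_mul, h22, mul_zero]
  have h15 : (a1 * (z 2 - z 3)).re = 0 := by
    have : a1 * (z 2 - z 3) = a1 * (z 0 - z 3) - a1 * (z 0 - z 2) := by ring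
    rw [this, Complex.sub_re, h14, h12, sub_zero]
  have im3 : (a1 * (z 2 - z 3)).im ≠ 0 := by
    intro h
    exact mul_ne_zero h13 h23' (Complex.ext h15 h)
  refine ⟨![false, false, true, true], fun a b τ h => ?_⟩
  have r0 := hver _ a b τ h 0 rfl
  have r1 := hver _ a b τ h 1 rfl
  have r2 := hhor _ a b τ h 2 rfl
  have r3 := hhor _ a b τ h 3 rfl
  have s1 := hsub a b 0 1 r0 r1
  have s2 := hsubi a b 2 3 r2 r3
  have ha : a = 0 := by
    have e1 : a * (z 0 - z 1) = a / a1 * (a1 * (z 0 - z 1)) := by field_simp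
    have e2 : a * (z 2 - z 3) = a / a1 * (a1 * (z 2 - z 3)) := by field_simp
    rw [e1, Complex.mul_re, h11, mul_zero, zero_sub, neg_eq_zero] at s1
    rw [e2, Complex.mul_im, h15, mul_zero, add_zero] at s2
    have m1 : (a / a1).im = 0 := by
      rcases mul_eq_zero.mp s1 with h | h
      · exact h
      · exact absurd h im1
    have m2 : (a / a1).re = 0 := by
      rcases mul_eq_zero.mp s2 with h | h
      · exact h
      · exact absurd h im3
    have m3 : a / a1 = 0 := Complex.ext m2 m1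
    rcases div_eq_zero_iff.mp m3 with h | h
    · exact h
    · exact absurd h h13
  rw [ha, zero_mul, zero_add] at r0 r2
  exact hfin _ a b τ h ha (Complex.ext r0 r2)

theorem exists_rot (z : Fin 4 → ℂ) (hz : Function.Injective z) :
    ∃ w : ℂ, w ≠ 0 ∧ (∀ i j, i ≠ j → (w * z i).re ≠ (w * z j).re) ∧
      ∀ i j, i ≠ j → (w * z i).im ≠ (w * z j).im := by
  have hfin : (⋃ i : Fin 4, ⋃ j : Fin 4, {s : ℝ | i ≠ j ∧ ((z i - z j).re - s * (z i - z j).im = 0 ∨
      (z i - z j).im + s * (z i - z j).re = 0)}).Finite := by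
    refine Set.finite_iUnion fun i => Set.finite_iUnion fun j => ?_
    by_cases hij : i = j
    · have : {s : ℝ | i ≠ j ∧ ((z i - z j).re - s * (z i - z j).im = 0 ∨
          (z i - z j).im + s * (z i - z j).re = 0)} = ∅ := by
        ext s
        simp [hij]
      rw [this]
      exact Set.finite_empty
    have hne : z i - z j ≠ 0 := sub_ne_zero.mpr (hz.ne hij)
    set u := (z i - z j).re with hu
    set v := (z i - z j).im with hv
    have huv : u ≠ 0 ∨ v ≠ 0 := by
      by_contra h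
      push Not at h
      exact hne (Complex.ext h.1 h.2)
    apply Set.Finite.subset (Set.Finite.union (Set.finite_singleton (u / v))
      (Set.finite_singleton (-v / u)))
    rintro s ⟨_, h1 | h1⟩
    · left
      have hv0 : v ≠ 0 := by
        intro h
        rw [h, mul_zero, sub_zero] at h1
        rcases huv with h2 | h2
        · exact h2 h1
        · exact h2 h
      rw [Set.mem_singleton_iff, eq_div_iff hv0]
      linarith
    · right
      have hu0 : u ≠ 0 := by
        intro h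
        rw [h, mul_zero, add_zero] at h1
        rcases huv with h2 | h2
        · exact h2 h
        · exact h2 h1
      rw [Set.mem_singleton_iff, eq_div_iff hu0]
      linarith
  obtain ⟨s, hs⟩ := hfin.exists_notMem
  have hs' : ∀ i j, i ≠ j → (z i - z j).re - s * (z i - z j).im ≠ 0 ∧
      (z i - z j).im + s * (z i - z j).re ≠ 0 := by
    intro i j hij
    constructor
    · intro h
      exact hs (Set.mem_iUnion.mpr ⟨i, Set.mem_iUnion.mpr ⟨j, hij, Or.inl h⟩⟩)
    · intro h
      exact hs (Set.mem_iUnion.mpr ⟨i, Set.mem_iUnion.mpr ⟨j, hij, Or.inr h⟩⟩)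
  refine ⟨⟨1, s⟩, ?_, ?_, ?_⟩
  · intro h
    have := congrArg Complex.re h
    simp at this
  · intro i j hij h
    apply (hs' i j hij).1
    simp only [Complex.mul_re, Complex.sub_re, Complex.sub_im] at h ⊢
    linarith
  · intro i j hij h
    apply (hs' i j hij).2
    simp only [Complex.mul_im, Complex.sub_re, Complex.sub_im] at h ⊢
    linarith

/-! ### Curves -/

/-- The space of the injective closed curves, with the supremum distance. -/
abbrev JC := {γ : C(Circle, ℂ) // Function.Injective γ}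

/-- `A` is uniformly lower porous: all small balls around every point `x` of the space contain
a ball of proportional radius which does not meet `A`. -/
def Porous {X : Type*} [PseudoMetricSpace X] (A : Set X) : Prop :=
  ∃ c > 0, ∀ x : X, ∃ r₀ > 0, ∀ r, 0 < r → r < r₀ → ∃ y, dist y x < r ∧
    ∀ w, dist w y < c * r → w ∉ A

/-- the part `U` of the curve contains the vertices of a similar copy of `z` -/
def Copy (γ : JC) (U : Set Circle) (z : Fin 4 → ℂ) : Prop :=
  ∃ a b : ℂ, a ≠ 0 ∧ ∀ i, ∃ x ∈ U, γ.1 x = a * z i + b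

theorem rot_exists (ζ : ℂ) : ∃ ω : ℂ, ‖ω‖ = 1 ∧ ‖ζ‖ / 2 ≤ (ω * ζ).re := by
  have h := Complex.norm_le_abs_re_add_abs_im ζ
  rcases le_total |ζ.im| |ζ.re| with h1 | h1
  · rcases le_total 0 ζ.re with h2 | h2
    · refine ⟨1, by simp, ?_⟩
      rw [abs_of_nonneg h2] at h h1
      rw [one_mul]; linarith
    · refine ⟨-1, by simp, ?_⟩
      rw [abs_of_nonpos h2] at h h1
      simp only [neg_mul, one_mul, Complex.neg_re]; linarith
  · rcases le_total 0 ζ.im with h2 | h2
    · refine ⟨-I, by simp, ?_⟩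
      rw [abs_of_nonneg h2] at h h1
      simp; linarith
    · refine ⟨I, by simp, ?_⟩
      rw [abs_of_nonpos h2] at h h1
      simp; linarith

theorem main_porous (z : Fin 4 → ℂ) (hz : Function.Injective z) :
    ∃ δ > 0, ∀ U : Set Circle, IsOpen U → U.Nonempty →
      Porous {γ : JC | ¬ ∀ z' : Fin 4 → ℂ, Function.Injective z' → (∀ i, ‖z' i - z i‖ ≤ δ) →
        Copy γ U z'} := by
  obtain ⟨w, hw0, hwre, hwim⟩ := exists_rot z hz
  set Z : Fin 4 → ℂ := fun i => w * z i with hZ
  have hZinj : Function.Injective Z := fun i j h => hz (mul_left_cancel₀ hw0 h)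
  obtain ⟨hor, hdir⟩ := exists_dir Z hZinj
  obtain ⟨a0, η0, ha0, hη0, h8, hCL⟩ := CL Z hwre hwim
  obtain ⟨κ, hκ0, hκ1, hML⟩ := ML Z (dir hor) (dir_norm hor) (hZinj.ne (by decide)) hdir (a0 / η0)
  have hwn : 0 < ‖w‖ := norm_pos_iff.mpr hw0
  refine ⟨κ / ‖w‖, by positivity, fun U hU hUne => ⟨κ * η0 / 40, by positivity, fun γ => ?_⟩⟩
  -- an arc in `U`
  obtain ⟨x0, hx0⟩ := hUne
  obtain ⟨S0, rfl⟩ := Circle.exp_surjective x0
  have hopen : IsOpen (Circle.exp ⁻¹' U) := hU.preimage Circle.exp.continuous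
  obtain ⟨e, he, hball⟩ := Metric.isOpen_iff.mp hopen S0 hx0
  set S1 : ℝ := S0 + min (e / 2) 1 with hS1
  have hmin0 : 0 < min (e / 2) 1 := by positivity
  have hS01 : S0 < S1 := by rw [hS1]; linarith
  have hIcc : ∀ t ∈ Icc S0 S1, Circle.exp t ∈ U := by
    intro t ht
    apply hball
    rw [Metric.mem_ball, Real.dist_eq, abs_of_nonneg (by linarith [ht.1])]
    have := min_le_left (e / 2) 1
    have := ht.2
    rw [hS1] at this
    linarith
  have hexp : Circle.exp S1 ≠ Circle.exp S0 := by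
    intro h
    have hinj := Circle.exp_injOn_Icc (a := S0) (b := S1) (by
      have := min_le_right (e / 2) 1
      have := Real.pi_gt_three
      rw [hS1]; linarith)
    have := hinj ⟨hS01.le, le_rfl⟩ ⟨le_rfl, hS01.le⟩ h
    linarith
  set c : ℝ → ℂ := fun t => γ.1 (Circle.exp t) with hc
  have hcc : Continuous c := γ.1.continuous.comp Circle.exp.continuous
  have hD : 0 < ‖c S1 - c S0‖ := by
    rw [norm_pos_iff, sub_ne_zero]
    exact fun h => hexp (γ.2 h)
  refine ⟨‖c S1 - c S0‖, hD, fun r hr hrD => ?_⟩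
  set ℓ : ℝ := r / 20 with hℓ
  have hℓ0 : 0 < ℓ := by positivity
  obtain ⟨T0, T1, hT1, hT2, hT3, hT4, hT5, hT6⟩ := cross_le
    (φ := fun t => ‖c t - c S0‖) (by fun_prop) hS01.le (u := 0) (v := ℓ) hℓ0.le (by simp)
    (by show ℓ ≤ ‖c S1 - c S0‖; rw [hℓ]; linarith)
  have hcT0 : c T0 = c S0 := by
    have : ‖c T0 - c S0‖ = 0 := hT4
    exact sub_eq_zero.mp (norm_eq_zero.mp this)
  have hT01 : T0 < T1 := by
    rcases eq_or_lt_of_le hT2 with h | h
    · exfalso
      rw [← h] at hT5
      have : ‖c T0 - c S0‖ = 0 := hT4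
      simp only [this] at hT5
      linarith
    · exact h
  obtain ⟨ω, hω, hωre⟩ := rot_exists (c T1 - c T0)
  have hω0 : ω ≠ 0 := by
    intro h; rw [h, norm_zero] at hω; norm_num at hω
  have hT5' : ‖c T1 - c T0‖ = ℓ := by rw [hcT0]; exact hT5
  rw [hT5'] at hωre
  obtain ⟨h, hhc, hhi, hhd, b, p, q, hsub, harc, hp, hq⟩ := hCL hor κ hκ0 hκ1
    (fun t => ω * c t) (continuous_const.mul hcc) T0 T1 (ℓ / 2) hT01 (by positivity)
    (by
      have : ω * (c T1 - c T0) = ω * c T1 - ω * c T0 := by ring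
      rw [this, Complex.sub_re] at hωre
      exact hωre)
    (by
      intro t ht
      have e1 : ω * c t - ω * c T0 = ω * (c t - c S0) := by rw [hcT0]; ring
      show ‖ω * c t - ω * c T0‖ ≤ _
      rw [e1, norm_mul, hω, one_mul]
      have h9 : ‖c t - c S0‖ ≤ ℓ := (hT6 t ht).2
      linarith)
  -- the new curve
  let γ' : JC := ⟨⟨fun x => ω⁻¹ * h (ω * γ.1 x), by
      exact continuous_const.mul (hhc.comp (continuous_const.mul γ.1.continuous))⟩, by
      intro x y hxy
      have h1 : ω⁻¹ * h (ω * γ.1 x) = ω⁻¹ * h (ω * γ.1 y) := hxy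
      have h2 := mul_left_cancel₀ (inv_ne_zero hω0) h1
      exact γ.2 (mul_left_cancel₀ hω0 (hhi h2))⟩
  have hγ' : ∀ x, γ'.1 x = ω⁻¹ * h (ω * γ.1 x) := fun x => rfl
  refine ⟨γ', ?_, ?_⟩
  · rw [Subtype.dist_eq]
    have : dist γ'.1 γ.1 ≤ 20 * (ℓ / 2) := by
      rw [ContinuousMap.dist_le (by positivity)]
      intro x
      rw [hγ', Complex.dist_eq]
      have e1 : ω⁻¹ * h (ω * γ.1 x) - γ.1 x = ω⁻¹ * (h (ω * γ.1 x) - ω * γ.1 x) := by
        field_simp
      rw [e1, norm_mul, norm_inv, hω, inv_one, one_mul]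
      exact hhd _
    rw [hℓ] at this
    linarith
  intro γ2 hγ2 hbad
  apply hbad
  intro z' hz'inj hz'
  rw [Subtype.dist_eq] at hγ2
  set η : ℝ := η0 * (ℓ / 2) with hη
  have hηp : 0 < η := by positivity
  have hκη : κ * η0 / 40 * r = κ * η := by rw [hη, hℓ]; ring
  rw [hκη] at hγ2
  -- the path of the third curve
  set c2 : ℝ → ℂ := fun t => ω * γ2.1 (Circle.exp t) with hc2
  have hc2c : Continuous c2 := continuous_const.mul (γ2.1.continuous.comp Circle.exp.continuous)
  have hclose : ∀ t, ‖c2 t - h (ω * c t)‖ ≤ κ * η := by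
    intro t
    have e1 : c2 t - h (ω * c t) = ω * (γ2.1 (Circle.exp t) - γ'.1 (Circle.exp t)) := by
      rw [hγ', hc2, hc]
      field_simp
    rw [e1, norm_mul, hω, one_mul, ← Complex.dist_eq]
    exact (ContinuousMap.dist_apply_le_dist _).trans hγ2.le
  have hconj : ∀ i (x y : ℂ), ‖x - y‖ ≤ κ * η →
      |(x * (starRingEnd ℂ) (dir hor i)).re - (y * (starRingEnd ℂ) (dir hor i)).re| ≤ κ * η ∧
      |(x * (starRingEnd ℂ) (dir hor i)).im - (y * (starRingEnd ℂ) (dir hor i)).im| ≤ κ * η := by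
    intro i x y hxy
    have e1 : ‖x * (starRingEnd ℂ) (dir hor i) - y * (starRingEnd ℂ) (dir hor i)‖ ≤ κ * η := by
      rw [← sub_mul, norm_mul, RCLike.norm_conj, dir_norm, mul_one]
      exact hxy
    constructor
    · rw [← Complex.sub_re]
      exact (Complex.abs_re_le_norm _).trans e1
    · rw [← Complex.sub_im]
      exact (Complex.abs_im_le_norm _).trans e1
  have hκηη : κ * η ≤ η := by nlinarith
  obtain ⟨t, ht, a', b', ha', hab⟩ := hML (fun i => w * z' i)
    (by
      intro i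
      have e1 : w * z' i - Z i = w * (z' i - z i) := by rw [hZ]; ring
      show ‖w * z' i - Z i‖ ≤ κ
      rw [e1, norm_mul]
      calc ‖w‖ * ‖z' i - z i‖ ≤ ‖w‖ * (κ / ‖w‖) := mul_le_mul_of_nonneg_left (hz' i) hwn.le
        _ = κ := by field_simp)
    (by
      intro h
      have := hz'inj (mul_left_cancel₀ hw0 h)
      exact absurd this (by decide))
    η (((a0 * (ℓ / 2) : ℝ) : ℂ)) b hηp
    (by
      rw [Complex.norm_real, Real.norm_eq_abs, abs_of_pos (by positivity), hη]
      apply le_of_eq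
      field_simp)
    (by
      rw [Complex.norm_real, Real.norm_eq_abs, abs_of_pos (by positivity), hη]
      nlinarith)
    c2 hc2c p q
    (by
      intro i t ht
      obtain ⟨e1, e2⟩ := harc i t ht
      set v : ℂ := ((a0 * (ℓ / 2) : ℝ) : ℂ) * Z i + b with hv
      refine ⟨?_, ?_⟩
      · have e3 : c2 t - v = (c2 t - h (ω * c t)) + (h (ω * c t) - v) := by ring
        rw [e3]
        refine (norm_add_le _ _).trans ?_
        have := hclose t
        linarith
      · have e3 := (hconj i (c2 t - v) (h (ω * c t) - v) (by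
          have : c2 t - v - (h (ω * c t) - v) = c2 t - h (ω * c t) := by ring
          rw [this]; exact hclose t)).2
        rw [abs_le] at e3 e2 ⊢
        constructor <;> linarith [e3.1, e3.2, e2.1, e2.2])
    (by
      intro i
      set v : ℂ := ((a0 * (ℓ / 2) : ℝ) : ℂ) * Z i + b with hv
      have e3 := (hconj i (c2 (p i) - v) (h (ω * c (p i)) - v) (by
          have : c2 (p i) - v - (h (ω * c (p i)) - v) = c2 (p i) - h (ω * c (p i)) := by ring
          rw [this]; exact hclose _)).1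
      rw [abs_le] at e3
      have := hp i
      linarith [e3.1, e3.2])
    (by
      intro i
      set v : ℂ := ((a0 * (ℓ / 2) : ℝ) : ℂ) * Z i + b with hv
      have e3 := (hconj i (c2 (q i) - v) (h (ω * c (q i)) - v) (by
          have : c2 (q i) - v - (h (ω * c (q i)) - v) = c2 (q i) - h (ω * c (q i)) := by ring
          rw [this]; exact hclose _)).1
      rw [abs_le] at e3
      have := hq i
      linarith [e3.1, e3.2])
  refine ⟨ω⁻¹ * a' * w, ω⁻¹ * b', mul_ne_zero (mul_ne_zero (inv_ne_zero hω0) ha') hw0, ?_⟩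
  intro i
  refine ⟨Circle.exp (t i), ?_, ?_⟩
  · apply hIcc
    have := hsub i (ht i)
    exact ⟨hT1.trans this.1, this.2.trans hT3⟩
  · have e1 : ω * γ2.1 (Circle.exp (t i)) = a' * (w * z' i) + b' := hab i
    have e2 : γ2.1 (Circle.exp (t i)) = ω⁻¹ * (ω * γ2.1 (Circle.exp (t i))) := by field_simp
    rw [e2, e1]
    ring

end Pool.Agent.N440.TJ
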