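import Mathlib
import Pool.Agent.N440.TJ.Fin

set_option autoImplicit false
set_option maxHeartbeats 4000000

namespace Pool.Agent.N440.TJ

open Complex Set Topology

/-! ### Porous sets are nowhere dense -/

theorem porous_nowhere {X : Type*} [PseudoMetricSpace X] {A : Set X} (hA : Porous A) :
    IsNowhereDense A := by
  obtain ⟨c, hc, h⟩ := hA
  rw [IsNowhereDense, Set.eq_empty_iff_forall_notMem]
  intro x hx
  obtain ⟨e, he, hball⟩ := Metric.isOpen_iff.mp isOpen_interior x hx
  obtain ⟨r0, hr0, hr⟩ := h x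
  set r : ℝ := min (r0 / 2) (e / 2) with hrdef
  have hr1 : 0 < r := by positivity
  have hr2 : r < r0 := lt_of_le_of_lt (min_le_left _ _) (by linarith)
  have hr3 : r < e := lt_of_le_of_lt (min_le_right _ _) (by linarith)
  obtain ⟨y, hy, hyw⟩ := hr r hr1 hr2
  have hyc : y ∈ closure A := interior_subset (hball (by
    rw [Metric.mem_ball]; linarith))
  obtain ⟨w, hw, hwd⟩ := Metric.mem_closure_iff.mp hyc (c * r) (by positivity)
  exact hyw w (by rw [dist_comm]; exact hwd) hw

/-! ### The space of injective closed curves is a Baire space -/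

/-- curves which are injective at the scale `1 / (n + 1)` -/
def O (n : ℕ) : Set C(Circle, ℂ) :=
  {γ | ∀ x y, 1 / ((n : ℝ) + 1) ≤ dist x y → γ x ≠ γ y}

theorem O_open (n : ℕ) : IsOpen (O n) := by
  rw [Metric.isOpen_iff]
  intro γ hγ
  set K : Set (Circle × Circle) := {p | 1 / ((n : ℝ) + 1) ≤ dist p.1 p.2} with hK
  have hKc : IsCompact K := by
    have : IsClosed K := isClosed_le continuous_const (by fun_prop)
    exact this.isCompact
  rcases K.eq_empty_or_nonempty with hKe | hKne
  · refine ⟨1, one_pos, fun γ2 _ x y hxy => ?_⟩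
    have : (x, y) ∈ K := hxy
    rw [hKe] at this
    exact absurd this (Set.notMem_empty _)
  · obtain ⟨p, hp, hmin⟩ := hKc.exists_isMinOn hKne
      (f := fun p : Circle × Circle => dist (γ p.1) (γ p.2)) (by fun_prop)
    have hpos : 0 < dist (γ p.1) (γ p.2) := dist_pos.mpr (hγ p.1 p.2 hp)
    refine ⟨dist (γ p.1) (γ p.2) / 2, by positivity, fun γ2 h2 x y hxy heq => ?_⟩
    rw [Metric.mem_ball] at h2
    have h3 : dist (γ p.1) (γ p.2) ≤ dist (γ x) (γ y) := hmin (show (x, y) ∈ K from hxy)
    have h4 := ContinuousMap.dist_apply_le_dist (f := γ2) (g := γ) x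
    have h5 := ContinuousMap.dist_apply_le_dist (f := γ2) (g := γ) y
    have h6 : dist (γ x) (γ y) ≤ dist (γ2 x) (γ x) + dist (γ2 y) (γ y) := by
      calc dist (γ x) (γ y) ≤ dist (γ x) (γ2 x) + dist (γ2 x) (γ y) := dist_triangle _ _ _
        _ = dist (γ2 x) (γ x) + dist (γ2 y) (γ y) := by rw [dist_comm (γ x), heq]
    linarith

theorem inj_eq : {γ : C(Circle, ℂ) | Function.Injective γ} = ⋂ n, O n := by
  ext γ
  simp only [Set.mem_ofPred_eq, Set.mem_iInter, O]
  constructor
  · intro h n x y hxy heq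
    have : x = y := h heq
    rw [this, dist_self] at hxy
    have : 0 < 1 / ((n : ℝ) + 1) := by positivity
    linarith
  · intro h x y hxy
    by_contra hne
    have hd : 0 < dist x y := dist_pos.mpr hne
    obtain ⟨n, hn⟩ := exists_nat_one_div_lt hd
    exact h n x y hn.le hxy

instance baire : BaireSpace JC := by
  set J : Set C(Circle, ℂ) := {γ | Function.Injective γ} with hJ
  set cl : Set C(Circle, ℂ) := closure J with hcl
  have : CompleteSpace cl := isClosed_closure.completeSpace_coe
  have : BaireSpace cl := inferInstance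
  set J' : Set cl := {x | Function.Injective x.1} with hJ'
  have hG : IsGδ J' := by
    have h1 : J' = ⋂ n, (Subtype.val ⁻¹' (O n) : Set cl) := by
      rw [← Set.preimage_iInter, ← inj_eq]
      rfl
    rw [h1]
    exact IsGδ.iInter_of_isOpen fun n => (O_open n).preimage continuous_subtype_val
  have hD : Dense J' := by
    rw [Subtype.dense_iff]
    have h1 : (Subtype.val '' J' : Set C(Circle, ℂ)) = J := by
      ext γ
      constructor
      · rintro ⟨x, hx, rfl⟩
        exact hx
      · intro hγ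
        exact ⟨⟨γ, subset_closure hγ⟩, hγ, rfl⟩
    rw [h1]
  have : BaireSpace J' := hG.baireSpace_of_dense hD
  let e : J' ≃ₜ JC :=
    { toFun := fun x => ⟨x.1.1, x.2⟩
      invFun := fun γ => ⟨⟨γ.1, subset_closure γ.2⟩, γ.2⟩
      left_inv := fun x => rfl
      right_inv := fun x => rfl
      continuous_toFun := by fun_prop
      continuous_invFun := by fun_prop }
  exact e.baireSpace

/-! ### The theorem -/

/-- Every nonempty open part of the curve contains the vertices of a directly similar copy of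
every quadruple of distinct points. -/
def Universal (γ : JC) : Prop :=
  ∀ U : Set Circle, IsOpen U → U.Nonempty → ∀ z : Fin 4 → ℂ, Function.Injective z → Copy γ U z

theorem final :
    (∃ s : ℕ → Set JC, (∀ n, Porous (s n)) ∧ {γ : JC | ¬ Universal γ} ⊆ ⋃ n, s n) ∧
      IsMeagre {γ : JC | ¬ Universal γ} ∧ Dense {γ : JC | Universal γ} := by
  classical
  have hch : ∀ z : Fin 4 → ℂ, ∃ δ > 0, Function.Injective z → ∀ U : Set Circle, IsOpen U →
      U.Nonempty → Porous {γ : JC | ¬ ∀ z' : Fin 4 → ℂ, Function.Injective z' →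
        (∀ i, ‖z' i - z i‖ ≤ δ) → Copy γ U z'} := by
    intro z
    by_cases hz : Function.Injective z
    · obtain ⟨δ, hδ, h⟩ := main_porous z hz
      exact ⟨δ, hδ, fun _ => h⟩
    · exact ⟨1, one_pos, fun h => absurd h hz⟩
  choose δ hδ hpor using hch
  -- countably many patterns
  obtain ⟨T, hTsub, hTc, hTcov⟩ := TopologicalSpace.countable_cover_nhdsWithin
    (f := fun z : Fin 4 → ℂ => Metric.ball z (δ z)) (s := {z | Function.Injective z})
    (fun z _ => mem_nhdsWithin_of_mem_nhds (Metric.ball_mem_nhds z (hδ z)))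
  -- countably many open sets
  obtain ⟨B, hBc, hBe, hBb⟩ := TopologicalSpace.exists_countable_basis Circle
  -- the porous sets
  set P : Set (Set JC) := (fun p : (Fin 4 → ℂ) × Set Circle =>
    {γ : JC | ¬ ∀ z' : Fin 4 → ℂ, Function.Injective z' → (∀ i, ‖z' i - p.1 i‖ ≤ δ p.1) →
      Copy γ p.2 z'}) '' (T ×ˢ B) with hP
  have hPc : P.Countable := (hTc.prod hBc).image _
  have hPp : ∀ A ∈ P, Porous A := by
    rintro A ⟨⟨z, U⟩, ⟨hz, hU⟩, rfl⟩
    apply hpor z (hTsub hz) U (hBb.isOpen hU)
    by_contra hne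
    rw [Set.not_nonempty_iff_eq_empty] at hne
    rw [hne] at hU
    exact hBe hU
  have hcover : {γ : JC | ¬ Universal γ} ⊆ ⋃₀ P := by
    intro γ hγ
    have hγ' : ¬ Universal γ := hγ
    unfold Universal at hγ'
    push Not at hγ'
    obtain ⟨U, hUo, ⟨x, hx⟩, z, hz, hcopy⟩ := hγ'
    obtain ⟨V, hVB, hxV, hVU⟩ := hBb.exists_subset_of_mem_open hx hUo
    have hzT := hTcov (show z ∈ {z | Function.Injective z} from hz)
    simp only [Set.mem_iUnion] at hzT
    obtain ⟨z0, hz0T, hz0⟩ := hzT
    refine ⟨_, ⟨(z0, V), ⟨hz0T, hVB⟩, rfl⟩, ?_⟩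
    intro hall
    apply hcopy
    obtain ⟨a, b, ha, hab⟩ := hall z hz (by
      intro i
      have h1 : dist z z0 < δ z0 := hz0
      have h2 := (dist_pi_lt_iff (hδ z0)).mp h1 i
      rw [Complex.dist_eq] at h2
      exact h2.le)
    refine ⟨a, b, ha, fun i => ?_⟩
    obtain ⟨y, hy, hyv⟩ := hab i
    exact ⟨y, hVU hy, hyv⟩
  have hPne : P.Nonempty := by
    have h1 : (∅ : Set (Set JC)) ≠ P := by
      intro h
      -- `T` and `B` are nonempty
      have hTne : T.Nonempty := by
        have hz0 : (fun i : Fin 4 => ((i : ℕ) : ℂ)) ∈ {z : Fin 4 → ℂ | Function.Injective z} := by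
          intro i j hij
          have h0 : ((i : ℕ) : ℂ) = ((j : ℕ) : ℂ) := hij
          have : (i : ℕ) = (j : ℕ) := by exact_mod_cast h0
          exact Fin.ext this
        have h2 := hTcov hz0
        simp only [Set.mem_iUnion] at h2
        obtain ⟨z0, hz0T, _⟩ := h2
        exact ⟨z0, hz0T⟩
      have hBne : B.Nonempty := by
        obtain ⟨V, hV, _, _⟩ := hBb.exists_subset_of_mem_open (Set.mem_univ (1 : Circle)) isOpen_univ
        exact ⟨V, hV⟩
      obtain ⟨z0, hz0⟩ := hTne
      obtain ⟨V, hV⟩ := hBne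
      have h3 : _ ∈ P := ⟨(z0, V), ⟨hz0, hV⟩, rfl⟩
      rw [← h] at h3
      exact h3
    exact Set.nonempty_iff_ne_empty.mpr (Ne.symm h1)
  obtain ⟨s, hs⟩ := hPc.exists_eq_range hPne
  have hsp : ∀ n, Porous (s n) := fun n => hPp _ (by rw [hs]; exact Set.mem_range_self n)
  have hsc : {γ : JC | ¬ Universal γ} ⊆ ⋃ n, s n := by
    rw [hs, Set.sUnion_range] at hcover
    exact hcover
  have hmeagre : IsMeagre {γ : JC | ¬ Universal γ} :=
    IsMeagre.mono hsc (isMeagre_iUnion fun n => (porous_nowhere (hsp n)).isMeagre)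
  refine ⟨⟨s, hsp, hsc⟩, hmeagre, ?_⟩
  have h1 : {γ : JC | Universal γ} = {γ : JC | ¬ Universal γ}ᶜ := by
    ext γ
    simp
  rw [h1]
  exact dense_of_mem_residual hmeagre

end Pool.Agent.N440.TJ
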